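import Pool.Agent.H41.SS.Targets
import Pool.Agent.H97.RK.DBase

/-!
Board ss_modules, row DEX: almost all formulas whose clauses have distinct variables expand.
-/

set_option autoImplicit false

namespace Pool.Agent.H20.SSM

open Finset Pool.Agent.H97.RK Pool.Agent.H97.RL Pool.Agent.H41.SS

private theorem dist_iff {n k m : ℕ} (F : Fml n k m) : Dist F ↔ ∀ c, F c ∈ Om n k :=
  forall_congr' fun _ => mem_Om.symm

open Classical in
private theorem card_dist (n k m : ℕ) :
    (((univ.filter fun F : Fml n k m => Dist F).card : ℕ) : ℝ) = ((Om n k).card : ℝ) ^ m := by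
  have h : (univ.filter fun F : Fml n k m => Dist F) =
      Fintype.piFinset fun _ : Fin m => Om n k := by
    ext F
    rw [mem_filter, Fintype.mem_piFinset, dist_iff]
    simp
  rw [h, Fintype.card_piFinset_const, Nat.cast_pow]

/-- all variables of the clause are in `U` -/
private def pIn {n k : ℕ} (U : Finset (Fin n)) (g : Fin k → Fin n × Bool) : Prop :=
  ∀ i, (g i).1 ∈ U

open Classical in
private theorem card_in (n k : ℕ) (hn : 1 ≤ n) (U : Finset (Fin n)) :
    (((Om n k).filter (pIn U)).card : ℝ) ≤ ((U.card : ℝ) / n) ^ k * (Om n k).card := by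
  have hn' : (0 : ℝ) < n := by exact_mod_cast hn
  have h1 : ((Om n k).filter (pIn U)) ⊆ cU n k U univ := by
    intro g hg
    rw [mem_filter] at hg
    rw [mem_cU]
    exact ⟨mem_Om.1 hg.1, fun i _ => hg.2 i⟩
  have h3 := card_cU (n := n) (k := k) U univ
  rw [card_univ, Fintype.card_fin] at h3
  have h4 : ((cU n k U univ).card : ℝ) * (n : ℝ) ^ k ≤ (Om n k).card * (U.card : ℝ) ^ k := by
    exact_mod_cast h3
  have h5 : (((Om n k).filter (pIn U)).card : ℝ) ≤ ((cU n k U univ).card : ℝ) := by exact_mod_cast card_le_card h1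
  refine h5.trans ?_
  rw [div_pow, div_mul_eq_mul_div, le_div_iff₀ (by positivity)]
  linarith

theorem pf_DEX : T_DEX := by
  classical
  intro n k m D hn hk hD
  have hn' : (0 : ℝ) < n := by exact_mod_cast hn
  have hN : (0 : ℝ) < (Om n k).card := by exact_mod_cast card_Om_pos hk
  rw [card_dist]
  obtain ⟨ct, hct⟩ : ∃ ct : ℕ → Finset (Fin n) → Finset (Fml n k m), ∀ s U, ct s U =
    univ.filter fun F : Fml n k m => (∀ c, F c ∈ Om n k) ∧
      s ≤ (univ.filter fun c => pIn U (F c)).card := ⟨_, fun _ _ => rfl⟩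
  have h1 : (univ.filter fun F : Fml n k m => Dist F ∧ ¬ Ex F D) ⊆
      (Icc 1 D).biUnion fun s => (powersetCard (2 * s) (univ : Finset (Fin n))).biUnion fun U =>
        ct s U := by
    intro F hF
    rw [mem_filter] at hF
    have h2 := hF.2.2
    unfold Ex at h2
    push Not at h2
    obtain ⟨S, hSD, hV⟩ := h2
    obtain ⟨U', hU, hc⟩ := exists_superset_card_eq (s := VS F S) (n := 2 * S.card) hV.le (by
      rw [Fintype.card_fin]
      omega)
    rw [mem_biUnion]
    refine ⟨S.card, mem_Icc.mpr ⟨by omega, hSD⟩, ?_⟩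
    rw [mem_biUnion]
    refine ⟨U', mem_powersetCard.mpr ⟨subset_univ _, hc⟩, ?_⟩
    rw [hct, mem_filter]
    refine ⟨mem_univ _, (dist_iff F).1 hF.2.1, card_le_card fun c hc' => ?_⟩
    rw [mem_filter]
    refine ⟨mem_univ _, fun i => hU ?_⟩
    unfold VS vF
    rw [mem_biUnion]
    exact ⟨c, hc', mem_image_of_mem _ (mem_univ i)⟩
  have h2 : ∀ s ∈ Icc 1 D, ∀ U ∈ powersetCard (2 * s) (univ : Finset (Fin n)),
      ((ct s U).card : ℝ) ≤ m.choose s * (2 * s / n : ℝ) ^ (k * s) *
        ((Om n k).card : ℝ) ^ m := by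
    intro s _ U hU
    have hc := (mem_powersetCard.mp hU).2
    have h3 := count_over' m s (Om n k) (pIn U) (ct s U) (fun F hF => by
        rw [hct, mem_filter] at hF
        exact hF.2)
    have h4 : (((Om n k).filter (pIn U)).card : ℝ) ≤ (2 * s / n : ℝ) ^ k * (Om n k).card := by
      have := card_in n k hn U
      rw [hc] at this
      push_cast at this
      exact this
    have h5 : ((ct s U).card : ℝ) * ((Om n k).card : ℝ) ^ s ≤
        m.choose s * (2 * s / n : ℝ) ^ (k * s) * ((Om n k).card : ℝ) ^ m *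
          ((Om n k).card : ℝ) ^ s := by
      have h6 : (m.choose s : ℝ) * (((Om n k).filter (pIn U)).card : ℝ) ^ s *
            ((Om n k).card : ℝ) ^ m ≤
          (m.choose s : ℝ) * ((2 * s / n : ℝ) ^ k * (Om n k).card) ^ s *
              ((Om n k).card : ℝ) ^ m := by
        refine mul_le_mul_of_nonneg_right ?_ (by positivity)
        refine mul_le_mul_of_nonneg_left ?_ (by positivity)
        exact pow_le_pow_left₀ (by positivity) h4 s
      refine h3.trans (h6.trans (le_of_eq ?_))
      rw [mul_pow, ← pow_mul]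
      ring
    exact le_of_mul_le_mul_right h5 (by positivity)
  calc ((univ.filter fun F : Fml n k m => Dist F ∧ ¬ Ex F D).card : ℝ)
      ≤ (((Icc 1 D).biUnion fun s => (powersetCard (2 * s) (univ : Finset (Fin n))).biUnion
          fun U => ct s U).card : ℝ) := by
        have := card_le_card h1
        exact_mod_cast this
    _ ≤ ∑ s ∈ Icc 1 D, ∑ U ∈ powersetCard (2 * s) (univ : Finset (Fin n)),
        ((ct s U).card : ℝ) := by
        have h3 : (((Icc 1 D).biUnion fun s =>
            (powersetCard (2 * s) (univ : Finset (Fin n))).biUnion fun U => ct s U).card) ≤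
            ∑ s ∈ Icc 1 D, ∑ U ∈ powersetCard (2 * s) (univ : Finset (Fin n)),
              (ct s U).card :=
          card_biUnion_le.trans (sum_le_sum fun s _ => card_biUnion_le)
        exact_mod_cast h3
    _ ≤ ∑ s ∈ Icc 1 D, ∑ U ∈ powersetCard (2 * s) (univ : Finset (Fin n)),
        (m.choose s * (2 * s / n : ℝ) ^ (k * s) * ((Om n k).card : ℝ) ^ m) :=
        sum_le_sum fun s hs' => sum_le_sum fun U hU => h2 s hs' U hU
    _ = _ := by
        rw [sum_mul]
        refine sum_congr rfl fun s _ => ?_
        rw [sum_const, card_powersetCard, card_univ, Fintype.card_fin, nsmul_eq_mul]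
        ring

end Pool.Agent.H20.SSM
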